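import Mathlib

namespace Pool.Agent.Results.MP_037a8f_lc.Zigzag

/-- Binary trees with natural-number keys. -/
inductive T : Type
  | nil : T
  | node (l : T) (k : ℕ) (r : T) : T

/-- Keys in symmetric order. -/
def T.keys : T → List ℕ
  | .nil => []
  | .node l k r => l.keys ++ k :: r.keys

/-- `t` is a binary search tree on the keys `1, ..., n`. -/
def IsBST (n : ℕ) (t : T) : Prop := t.keys = List.range' 1 n

/-- Depth of the key `x` (the root has depth zero). -/
def T.dep : T → ℕ → ℕ
  | .nil, _ => 0
  | .node l k r, x => if x < k then l.dep x + 1 else if k < x then r.dep x + 1 else 0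

/-- Total weight of the keys of a tree. -/
def T.wt (f : ℕ → ℕ) : T → ℕ
  | .nil => 0
  | .node l k r => l.wt f + f k + r.wt f

/-- Weighted path length: each key contributes its weight once for each node on its access
path, that is, `1 + depth` times. -/
def T.wpl (f : ℕ → ℕ) : T → ℕ
  | .nil => 0
  | .node l k r => l.wpl f + r.wpl f + (l.wt f + f k + r.wt f)

/-- Rotate `x` over its parent (no change if `x` is the root). -/
def T.rot : T → ℕ → T
  | .nil, _ => .nil
  | .node l k r, x =>
    if x < k then
      (match l with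
        | .nil => .node .nil k r
        | .node a j b => if x = j then .node a j (.node b k r) else .node (T.rot (.node a j b) x) k r)
    else if k < x then
      (match r with
        | .nil => .node l k .nil
        | .node a j b => if x = j then .node (.node l k a) j b else .node l k (T.rot (.node a j b) x))
    else .node l k r

/-- Rotate `x` up while this strictly decreases the weighted path length; returns the tree and
the number of rotations. The first argument bounds the number of rotations. -/
def adj (f : ℕ → ℕ) (x : ℕ) : ℕ → T → T × ℕ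
  | 0, t => (t, 0)
  | m + 1, t =>
    if (t.rot x).wpl f < t.wpl f then ((adj f x m (t.rot x)).1, (adj f x m (t.rot x)).2 + 1)
    else (t, 0)

/-- Cost of the WPL algorithm from tree `t`, with past accesses `h`. -/
def cost : T → List ℕ → List ℕ → ℕ
  | _, _, [] => 0
  | t, h, x :: σ =>
    1 + t.dep x + (adj (fun i => (x :: h).count i) x (t.dep x) t).2 +
      cost (adj (fun i => (x :: h).count i) x (t.dep x) t).1 (x :: h) σ

/-- Cost of a fixed tree. -/
def statCost (S : T) (σ : List ℕ) : ℕ := (σ.map (fun x => 1 + S.dep x)).sum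

def key (n i : ℕ) : ℕ := if i % 2 = 0 then n - i / 2 else 1 + i / 2

def Z (n : ℕ) : ℕ → ℕ → T
  | _, 0 => .nil
  | d, r + 1 => if d % 2 = 0 then .node (Z n (d + 1) r) (key n d) .nil
      else .node .nil (key n d) (Z n (d + 1) r)

theorem Z_keys (n : ℕ) : ∀ r d, d + r = n → (Z n d r).keys = List.range' (1 + d / 2) r := by
  intro r
  induction r with
  | zero => intro d _; rfl
  | succ r ih =>
    intro d hd
    unfold Z
    split_ifs with h
    · rw [T.keys, ih _ (by omega), List.range'_concat]
      simp only [T.keys, key, h, if_true]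
      congr 2 <;> omega
    · rw [T.keys, ih _ (by omega), List.range'_succ]
      simp only [T.keys, key, h, if_false, List.nil_append]
      congr 2; omega

theorem Z_dep (n : ℕ) : ∀ r d i, d + r = n → d ≤ i → i < n → (Z n d r).dep (key n i) = i - d := by
  intro r
  induction r with
  | zero => intro d i _ _ _; omega
  | succ r ih =>
    intro d i hd h1 h2
    unfold Z
    rcases Nat.eq_or_lt_of_le h1 with rfl | h3
    · split_ifs <;> simp [T.dep]
    · have := ih (d + 1) i (by omega) h3 h2
      split_ifs with h
      · have : key n i < key n d := by unfold key; split_ifs <;> omega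
        simp only [T.dep, this, if_true]; omega
      · have h4 : key n d < key n i := by unfold key; split_ifs <;> omega
        simp only [T.dep, h4, not_lt.2 h4.le, if_true, if_false]; omega

theorem Z_rot (n : ℕ) (f : ℕ → ℕ) (hf : ∀ i, i + 1 < n → f (key n (i + 1)) ≤ f (key n i)) (x : ℕ) :
    ∀ r d, d + r = n → ((Z n d r).rot x).wt f = (Z n d r).wt f ∧
      (Z n d r).wpl f ≤ ((Z n d r).rot x).wpl f := by
  intro r
  induction r with
  | zero => intro d _; simp [Z, T.rot]
  | succ r ih =>
    intro d hd
    have ih := ih (d + 1) (by omega)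
    cases r with
    | zero => by_cases h : d % 2 = 0 <;> simp [Z, h, T.rot]
    | succ r =>
      have h0 := hf d (by omega)
      by_cases h : d % 2 = 0
      · have h' : ¬ (d + 1) % 2 = 0 := by omega
        rw [Z, if_pos h]
        rw [Z, if_neg h'] at ih ⊢
        rw [T.rot]
        split_ifs <;> simp only [T.wt, T.wpl] at ih ⊢ <;> constructor <;> first | trivial | omega
      · have h' : (d + 1) % 2 = 0 := by omega
        rw [Z, if_neg h]
        rw [Z, if_pos h'] at ih ⊢
        rw [T.rot]
        split_ifs <;> simp only [T.wt, T.wpl] at ih ⊢ <;> constructor <;> first | trivial | omega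

theorem run (n : ℕ) (hn : 0 < n) : ∀ (m s : ℕ) (h : List ℕ),
    (∀ i < n, h.count (key n i) = s / n + if i < s % n then 1 else 0) →
    cost (Z n 0 n) h ((List.range' s m).map (fun j => key n (j % n))) =
      ((List.range' s m).map (fun j => 1 + j % n)).sum := by
  intro m
  induction m with
  | zero => intro s h _; rfl
  | succ m ih =>
    intro s h hh
    have hs : s % n < n := Nat.mod_lt _ hn
    have hc : ∀ i < n, (key n (s % n) :: h).count (key n i) =
        s / n + if i < s % n + 1 then 1 else 0 := by
      intro i hi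
      rw [List.count_cons, hh i hi]
      have : (key n (s % n) = key n i) ↔ s % n = i := by
        generalize s % n = a at hs
        unfold key; split_ifs <;> omega
      simp only [beq_iff_eq, this]
      split_ifs <;> omega
    have ha : adj (fun i => (key n (s % n) :: h).count i) (key n (s % n))
        ((Z n 0 n).dep (key n (s % n))) (Z n 0 n) = (Z n 0 n, 0) := by
      cases (Z n 0 n).dep (key n (s % n)) with
      | zero => rfl
      | succ e =>
        rw [adj, if_neg (not_lt.2 (Z_rot n _ (fun i hi => ?_) _ n 0 (by omega)).2)]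
        simp only [hc i (by omega), hc (i + 1) hi]
        split_ifs <;> omega
    rw [List.range'_succ, List.map_cons, List.map_cons, cost, ha, List.sum_cons,
      Z_dep n n 0 _ (by omega) (by omega) hs, ih (s + 1) _ (fun i hi => ?_)]
    · simp
    · rw [hc i hi, Nat.succ_div, Nat.add_mod s 1 n]
      by_cases e : s % n + 1 = n
      · have e1 : (s % n + 1 % n) % n = 0 := by rw [Nat.add_mod_mod, e, Nat.mod_self]
        have e2 : n ∣ s + 1 := by
          rw [Nat.dvd_iff_mod_eq_zero, Nat.add_mod s 1 n]; exact e1
        rw [e1, if_pos e2, if_pos (by omega)]; simp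
      · have e1 : (s % n + 1 % n) % n = s % n + 1 := by
          rw [Nat.add_mod_mod, Nat.mod_eq_of_lt (by omega)]
        have e2 : ¬ n ∣ s + 1 := by
          rw [Nat.dvd_iff_mod_eq_zero, Nat.add_mod s 1 n, e1]; omega
        rw [e1, if_neg e2]; simp

theorem bal : ∀ k lo, ∃ S : T, S.keys = List.range' lo (2 ^ k - 1) ∧ ∀ x, S.dep x ≤ k := by
  intro k
  induction k with
  | zero => intro lo; exact ⟨.nil, rfl, fun _ => le_rfl⟩
  | succ k ih =>
    intro lo
    obtain ⟨a, a1, a2⟩ := ih lo
    obtain ⟨b, b1, b2⟩ := ih (lo + (2 ^ k - 1) + 1)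
    refine ⟨.node a (lo + (2 ^ k - 1)) b, ?_, fun x => ?_⟩
    · have : 1 ≤ 2 ^ k := Nat.one_le_two_pow
      rw [T.keys, a1, b1, ← List.range'_succ, List.range'_append_1]
      congr 1; omega
    · have := a2 x
      have := b2 x
      simp only [T.dep]; split_ifs <;> omega

theorem sum_round (n : ℕ) (hn : 0 < n) (R : ℕ) :
    R * (n * n) ≤ 2 * ((List.range' 0 (R * n)).map (fun j => 1 + j % n)).sum := by
  induction R with
  | zero => simp
  | succ R ih =>
    have e : ∀ q ≤ n, q * q ≤ 2 * ((List.range' (R * n) q).map (fun j => 1 + j % n)).sum := by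
      intro q hq
      induction q with
      | zero => simp
      | succ q ihq =>
        have := ihq (by omega)
        rw [List.range'_concat, List.map_append, List.sum_append]
        have h2 : (R * n + 1 * q) % n = q := by
          rw [one_mul, Nat.mul_add_mod_self_right, Nat.mod_eq_of_lt (by omega)]
        simp only [List.map_cons, List.map_nil, List.sum_cons, List.sum_nil, h2]
        nlinarith
    have := e n le_rfl
    rw [Nat.succ_mul R n, ← List.range'_append_1, List.map_append, List.sum_append, zero_add]
    nlinarith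

theorem quant (k : ℕ) (hk : 1 ≤ k) : ∃ T0 S : T, IsBST (2 ^ k - 1) T0 ∧ IsBST (2 ^ k - 1) S ∧
    ∀ R : ℕ, ∃ σ : List ℕ, (∀ x ∈ σ, 1 ≤ x ∧ x ≤ 2 ^ k - 1) ∧ σ.length = R * (2 ^ k - 1) ∧
      statCost S σ ≤ (k + 1) * σ.length ∧ (2 ^ k - 1) * σ.length ≤ 2 * cost T0 [] σ := by
  obtain ⟨S, s1, s2⟩ := bal k 1
  have hn : 0 < 2 ^ k - 1 := by
    have : 2 ^ 1 ≤ 2 ^ k := Nat.pow_le_pow_right (by norm_num) hk
    omega
  generalize 2 ^ k - 1 = n at *
  refine ⟨Z n 0 n, S, by simpa [IsBST] using Z_keys n n 0 (by omega), s1, fun R =>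
    ⟨(List.range' 0 (R * n)).map (fun j => key n (j % n)), ?_, by simp, ?_, ?_⟩⟩
  · intro x hx
    obtain ⟨j, -, rfl⟩ := List.mem_map.1 hx
    have := Nat.mod_lt j hn
    generalize j % n = a at this
    unfold key; split_ifs <;> omega
  · have := List.sum_le_card_nsmul
      (((List.range' 0 (R * n)).map (fun j => key n (j % n))).map (fun x => 1 + S.dep x)) (k + 1)
      (by
        intro y hy
        obtain ⟨x, -, rfl⟩ := List.mem_map.1 hy
        have := s2 x
        omega)
    simpa [statCost, mul_comm] using this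
  · rw [run n hn (R * n) 0 [] (by simp)]
    have := sum_round n hn R
    simp only [List.length_map, List.length_range']
    nlinarith

theorem result (c : ℕ) : ∃ (n : ℕ) (T0 S : T), IsBST n T0 ∧ IsBST n S ∧
    ∀ a : ℕ, ∃ σ : List ℕ, (∀ x ∈ σ, 1 ≤ x ∧ x ≤ n) ∧ c * statCost S σ + a < cost T0 [] σ := by
  obtain ⟨T0, S, h1, h2, h3⟩ := quant (2 * (4 * c + 2)) (by omega)
  refine ⟨_, T0, S, h1, h2, fun a => ?_⟩
  obtain ⟨σ, g1, g2, g3, g4⟩ := h3 (a + 1)
  refine ⟨σ, g1, ?_⟩
  have e : 2 * c * (2 * (4 * c + 2) + 1) + 2 ≤ 2 ^ (2 * (4 * c + 2)) - 1 := by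
    have h5 : 4 * c + 2 < 2 ^ (4 * c + 2) := Nat.lt_two_pow_self
    have h6 : (4 * c + 2) * (4 * c + 2) ≤ 2 ^ (4 * c + 2) * 2 ^ (4 * c + 2) :=
      Nat.mul_le_mul h5.le h5.le
    rw [two_mul (4 * c + 2), pow_add]
    apply Nat.le_sub_one_of_lt
    nlinarith
  generalize 2 ^ (2 * (4 * c + 2)) - 1 = n at *
  have h7 : a + 1 ≤ σ.length := by rw [g2]; nlinarith
  nlinarith [Nat.mul_le_mul_right σ.length e, Nat.mul_le_mul_left c g3]

end Pool.Agent.Results.MP_037a8f_lc.Zigzag
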